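import Pool.Agent.AT3.Stmts2
import Pool.Agent.Helper97_K9.NZR
import Pool.Agent.Helper69_K9.Fmg

/-!
# Squad AT3, module RSV
-/

open scoped BigOperators

noncomputable section

namespace Pool.Agent.PP.T3.H17

open Pool.Agent.Helper51_AWC Pool.Agent.Helper79_WRA Pool.Agent.PP Pool.Agent.PP.KF
open Pool.Agent.PP.K9 Pool.Agent.PP.K9.H97 Pool.Agent.PP.H75

section core

variable {F G : Type} [Field F] [Group G] [Finite G] {C : Subgroup G} {a : G → F}

theorem core_sum {ℓ : ℕ} (hF : GoodF ℓ F) {V : Subgroup G} (hV : IsPGroup ℓ V)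
    (hab : ∀ a ∈ V, ∀ b ∈ V, a * b = b * a) (hVC : V ≤ C)
    (hXC : Subgroup.centralizer (V : Set G) ≤ C) {B : G → F} (hB : Ix C B) {w : G} (hwV : w ∈ V)
    (hwC : ∀ c ∈ C, c * w = w * c)
    (hgood : ∀ t : G, (∀ v ∈ V, t⁻¹ * v * t ∈ C) →
      (∃ x, (∀ v ∈ V, x * (t⁻¹ * v * t) = t⁻¹ * v * t * x) ∧ B x ≠ 0) →
      ∃ c ∈ C, t * c ∈ Subgroup.normalizer (V : Set G))
    {γ : G → F} (hγ : Bx (Subgroup.centralizer (V : Set G)) γ) (h1 : mulF (br V B) γ = γ)
    (hbx : Bx (Subgroup.normalizer (V : Set G) ⊓ C) (br V B)) :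
    ∃ (S : Finset (G ⧸ C)) (f : G ⧸ C → G), (∀ q ∈ S, f q ∈ V) ∧
      S.card = C.relIndex (Subgroup.normalizer (V : Set G) ⊓ stabF γ) ∧
      ma (br V (tsm C (fun x => B (w⁻¹ * x)))) * ma γ =
        (∑ q ∈ S, ma (dl F (f q))) * ma γ := by
  classical
  set N := Subgroup.normalizer (V : Set G) with hN
  set X := Subgroup.centralizer (V : Set G) with hX
  have hXN : X ≤ N := by
    intro g hg
    rw [hN, Subgroup.mem_normalizer_iff]
    intro v
    have h1 := Subgroup.mem_centralizer_iff.1 hg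
    constructor
    · intro hv
      rw [← h1 v hv, mul_inv_cancel_right]
      exact hv
    · intro hv
      have h2 := h1 _ hv
      have h3 : g * v = g * (g * v * g⁻¹) := by
        rw [← h2]
        group
      rw [mul_left_cancel h3]
      exact hv
  have hNX : N ≤ Subgroup.normalizer (X : Set G) := by
    intro g hg
    rw [Subgroup.mem_normalizer_iff]
    have key : ∀ g ∈ N, ∀ x ∈ X, g * x * g⁻¹ ∈ X := by
      intro g hg x hx
      rw [hX, Subgroup.mem_centralizer_iff] at hx ⊢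
      intro v hv
      have h2 : g⁻¹ * v * g ∈ V := by
        have := (Subgroup.mem_normalizer_iff.1 (inv_mem hg) v).1 hv
        rwa [inv_inv] at this
      have h3 := hx _ h2
      calc v * (g * x * g⁻¹) = g * (g⁻¹ * v * g * x) * g⁻¹ := by group
        _ = g * (x * (g⁻¹ * v * g)) * g⁻¹ := by rw [h3]
        _ = g * x * g⁻¹ * v := by group
    intro x
    constructor
    · exact key g hg x
    · intro h
      have := key g⁻¹ (inv_mem hg) _ h
      have e : g⁻¹ * (g * x * g⁻¹) * g⁻¹⁻¹ = x := by group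
      rwa [e] at this
  have hVX : V ≤ X := by
    intro v hv
    rw [hX, Subgroup.mem_centralizer_iff]
    intro x hx
    exact hab x hx v hv
  set bV := br V B with hbV
  have hbVX : ∀ x, x ∉ X → bV x = 0 := fun x hx => H66.br_of_not_mem hx
  have hbI : Ix X bV := by
    refine ⟨hbVX, ?_, ?_⟩
    · intro x y
      exact hbx.blk.1.1 ⟨x, ⟨hXN x.2, hXC x.2⟩⟩ ⟨y, ⟨hXN y.2, hXC y.2⟩⟩
    · rw [← mulF_res X bV hbVX, hbx.mul]
  -- the representatives
  have hrep : ∀ q : G ⧸ C, ∃ t : G, q ∈ QN N C → t ∈ N ∧ (t : G ⧸ C) = q := by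
    intro q
    by_cases hq : q ∈ QN N C
    · obtain ⟨t, ht, htq⟩ := hq
      exact ⟨t, fun _ => ⟨ht, htq⟩⟩
    · exact ⟨1, fun h => absurd h hq⟩
  choose rep hrep using hrep
  have hfinq : Finite (G ⧸ C) := inferInstance
  have := Fintype.ofFinite (G ⧸ C)
  set a : G → F := fun x => B (w⁻¹ * x) with ha
  have haC : ∀ c ∈ C, cj c a = a := by
    intro c hc
    funext x
    change B (w⁻¹ * (c⁻¹ * x * c)) = B (w⁻¹ * x)
    have h2 := (cj_eq_iff c B).1 (hB.inv hc) (w⁻¹ * (c⁻¹ * x * c))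
    rw [← h2]
    congr 1
    have h3 := hwC c hc
    have h4 : c * w⁻¹ = w⁻¹ * c := (show Commute c w from h3).inv_right.eq
    calc c * (w⁻¹ * (c⁻¹ * x * c)) * c⁻¹ = (c * w⁻¹) * (c⁻¹ * x) := by group
      _ = w⁻¹ * x := by rw [h4]; group
  have hsum : br V (tsm C a) =
      ∑ q ∈ Finset.univ.filter (fun q => q ∈ QN N C), cj (rep q) (mulF (dl F w) bV) := by
    funext g
    rw [Finset.sum_apply]
    have hcj : ∀ q ∈ QN N C, ∀ x, (rep q)⁻¹ * x * rep q ∈ X ↔ x ∈ X := fun q hq x =>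
      conj_mem_iff (hNX (hrep q hq).1) x
    by_cases hg : g ∈ X
    · rw [H66.br_of_mem hg, tsm_br hF hV hVC haC _ hg, finsum_eq_sum_of_fintype,
        Finset.sum_filter]
      · refine Finset.sum_congr rfl fun q _ => ?_
        rw [finsum_eq_if]
        by_cases hq : q ∈ QN N C
        · rw [if_pos hq, if_pos hq]
          have h2 := (hrep q hq).2
          conv_lhs => rw [← h2, cj_out haC]
          rw [cj, cj, mulF_dl_left, ha]
          change B _ = bV _
          rw [hbV, H66.br_of_mem]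
          exact X.mul_mem (X.inv_mem (hVX hwV)) ((hcj q hq g).2 hg)
        · rw [if_neg hq, if_neg hq]
      · intro t ht g hg hne
        obtain ⟨c, hc, htc⟩ := hgood t ht (by
          refine ⟨w⁻¹ * (t⁻¹ * g * t), ?_, hne⟩
          intro v hv
          have h2 := Subgroup.mem_centralizer_iff.1 hg v hv
          have h3 := hwC _ (ht v hv)
          have h4 : t⁻¹ * v * t * w⁻¹ = w⁻¹ * (t⁻¹ * v * t) :=
            (show Commute (t⁻¹ * v * t) w from h3).inv_right.eq
          calc w⁻¹ * (t⁻¹ * g * t) * (t⁻¹ * v * t) = w⁻¹ * (t⁻¹ * (g * v) * t) := by group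
            _ = w⁻¹ * (t⁻¹ * v * t) * (t⁻¹ * g * t) := by rw [← h2]; group
            _ = t⁻¹ * v * t * w⁻¹ * (t⁻¹ * g * t) := by rw [h4]
            _ = t⁻¹ * v * t * (w⁻¹ * (t⁻¹ * g * t)) := by group)
        refine ⟨t * c, htc, ?_⟩
        symm
        rw [QuotientGroup.eq, inv_mul_cancel_left]
        exact hc
    · rw [H66.br_of_not_mem hg]
      symm
      apply Finset.sum_eq_zero
      intro q hq
      rw [Finset.mem_filter] at hq
      rw [cj, mulF_dl_left]
      apply hbVX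
      intro h
      apply hg
      rw [← hcj q hq.2]
      have := X.mul_mem (hVX hwV) h
      rwa [mul_inv_cancel_left] at this
  set S : Finset (G ⧸ C) := Finset.univ.filter
    (fun q => q ∈ QN N C ∧ mulF (cj (rep q) bV) γ = γ) with hS
  have hwS : ∀ q ∈ QN N C, rep q * w * (rep q)⁻¹ ∈ V := fun q hq =>
    (Subgroup.mem_normalizer_iff.1 (hrep q hq).1 w).1 hwV
  have hzγ : ma (br V (tsm C a)) * ma γ =
      (∑ q ∈ S, ma (dl F (rep q * w * (rep q)⁻¹))) * ma γ := by
    have h8 : ∑ q ∈ S, ma (dl F (rep q * w * (rep q)⁻¹)) * ma γ =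
        ∑ q ∈ Finset.univ.filter (fun q => q ∈ QN N C),
          if mulF (cj (rep q) bV) γ = γ then ma (dl F (rep q * w * (rep q)⁻¹)) * ma γ
            else 0 := by
      rw [← Finset.sum_filter, Finset.filter_filter]
    rw [hsum, ma_sum, Finset.sum_mul, Finset.sum_mul, h8]
    refine Finset.sum_congr rfl fun q hq => ?_
    rw [Finset.mem_filter] at hq
    have h2 : cj (rep q) (dl F w) = dl F (rep q * w * (rep q)⁻¹) := by
      funext x
      rw [cj]
      unfold dl
      have h3 : ((rep q)⁻¹ * x * rep q = w) ↔ (x = rep q * w * (rep q)⁻¹) := by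
        constructor
        · rintro rfl
          group
        · rintro rfl
          group
      by_cases h4 : (rep q)⁻¹ * x * rep q = w
      · rw [if_pos h4, if_pos (h3.1 h4)]
      · rw [if_neg h4, if_neg (fun h => h4 (h3.2 h))]
    rw [cj_mulF, h2, ma_mul, mul_assoc, ← ma_mul]
    by_cases h5 : mulF (cj (rep q) bV) γ = γ
    · rw [if_pos h5, h5]
    · rw [if_neg h5]
      have h6 := hbI.cj (hNX (hrep q hq.2).1)
      rcases hγ.dich' h6 with h7 | h7
      · exact absurd (by rw [h6.comm hγ.ix, h7]) h5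
      · rw [h6.comm hγ.ix, h7, ma_zero, mul_zero]
  -- the number of summands
  have hScard : S.card = C.relIndex (N ⊓ stabF γ) := by
    rw [← orbit_card, ← Set.ncard_coe_finset]
    congr 1
    ext q
    rw [Finset.mem_coe, hS, Finset.mem_filter, MulAction.mem_orbit_iff]
    constructor
    · rintro ⟨-, hq, h2⟩
      obtain ⟨hr1, hr2⟩ := hrep q hq
      have h3 : mulF bV (cj (rep q)⁻¹ γ) = cj (rep q)⁻¹ γ := by
        have := congrArg (cj (rep q)⁻¹) h2
        rwa [cj_mulF, cj_inv_cj] at this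
      obtain ⟨m, hm, hm'⟩ := orb_main (N := N ⊓ C) (X := X) (le_inf hXN hXC)
        (inf_le_left.trans hNX) hbx hγ (hγ.cj (hNX (inv_mem hr1))) h1 h3
      have h4 : cj (rep q * m) γ = γ := by
        rw [← cj_cj, ← hm', cj_cj_inv]
      refine ⟨⟨rep q * m, N.mul_mem hr1 hm.1, (cj_eq_iff _ _).1 h4⟩, ?_⟩
      change ((rep q * m * 1 : G) : G ⧸ C) = q
      rw [mul_one, ← hr2]
      symm
      rw [QuotientGroup.eq, hr2, inv_mul_cancel_left]
      exact hm.2
    · rintro ⟨⟨t, ht1, ht2⟩, rfl⟩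
      have h0 : ((⟨t, ht1, ht2⟩ : (N ⊓ stabF γ : Subgroup G)) • ((1 : G) : G ⧸ C)) =
          ((t : G) : G ⧸ C) := by
        change ((t * 1 : G) : G ⧸ C) = _
        rw [mul_one]
      rw [h0]
      have hq : ((t : G) : G ⧸ C) ∈ QN N C := ⟨t, ht1, rfl⟩
      refine ⟨Finset.mem_univ _, hq, ?_⟩
      obtain ⟨hr1, hr2⟩ := hrep _ hq
      have h5 : (rep (t : G ⧸ C))⁻¹ * t ∈ N ⊓ C :=
        ⟨N.mul_mem (inv_mem hr1) ht1, QuotientGroup.eq.1 hr2⟩
      have h6 : cj (rep (t : G ⧸ C)) bV = cj t bV := by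
        have := hbx.ix.inv h5
        conv_lhs => rw [← this, cj_cj, mul_inv_cancel_left]
      have h7 : cj t γ = γ := (cj_eq_iff _ _).2 ht2
      rw [h6]
      conv_lhs => rw [← h7, ← cj_mulF, h1]
      exact h7
  exact ⟨S, fun q => rep q * w * (rep q)⁻¹,
    fun q hq => hwS q (Finset.mem_filter.1 hq).2.1, hScard, hzγ⟩

/-- the value of a nilpotent shift -/
theorem nil_eq {ℓ : ℕ} (hF : GoodF ℓ F) {V : Subgroup G} (hV : IsPGroup ℓ V)
    (hab : ∀ a ∈ V, ∀ b ∈ V, a * b = b * a) {ι : Type} (S : Finset ι) (w : ι → G)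
    (hw : ∀ i ∈ S, w i ∈ V) {γ z : G → F} (h0 : γ ≠ 0)
    (hγ : ∀ v ∈ V, cj v γ = γ) (hz : ma z * ma γ = (∑ i ∈ S, ma (dl F (w i))) * ma γ) (c : F)
    (n : ℕ) (hn : (ma z - algebraMap F (MonoidAlgebra F G) c) ^ n * ma γ = 0) :
    (S.card : F) = c := by
  have hfact : Fact ℓ.Prime := ⟨hF.prime⟩
  have hch : CharP F ℓ := hF.char
  have hchA : CharP (MonoidAlgebra F G) ℓ := charP_of_injective_algebraMap' F ℓ
  by_contra hne
  set κ := algebraMap F (MonoidAlgebra F G) c with hκ
  set A := ∑ i ∈ S, ma (dl F (w i)) with hA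
  have hκc : ∀ x : MonoidAlgebra F G, κ * x = x * κ := fun x => Algebra.commutes c x
  have hcomm : A * ma γ = ma γ * A := by
    rw [hA, Finset.sum_mul, Finset.mul_sum]
    refine Finset.sum_congr rfl fun i hi => ?_
    rw [← ma_mul, ← ma_mul, dl_move, hγ _ (hw i hi)]
  have hcomm' : (A - κ) * ma γ = ma γ * (A - κ) := by
    rw [sub_mul, mul_sub, hcomm, hκc]
  have hz' : (ma z - κ) * ma γ = (A - κ) * ma γ := by
    rw [sub_mul, sub_mul, hz]
  have hpow : ∀ k : ℕ, (ma z - κ) ^ k * ma γ = (A - κ) ^ k * ma γ := by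
    intro k
    induction k with
    | zero => rw [pow_zero, pow_zero]
    | succ k ih =>
      rw [pow_succ, mul_assoc, hz', hcomm', ← mul_assoc, ih, mul_assoc, ← hcomm', ← mul_assoc,
        ← pow_succ]
  have hnil : IsNilpotent (∑ i ∈ S, (ma (dl F (w i)) - 1)) := by
    apply Commute.isNilpotent_sum
    · intro i hi
      obtain ⟨k, hk⟩ := hV ⟨w i, hw i hi⟩
      refine ⟨ℓ ^ k, ?_⟩
      have hk' : w i ^ ℓ ^ k = 1 := congrArg Subtype.val hk
      rw [sub_pow_char_pow_of_commute ℓ k (Commute.one_right _), ma_dl_pow, hk', ma_dl_one, one_pow,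
        sub_self]
    · intro i j hi hj
      apply Commute.sub_left
      · apply Commute.sub_right
        · change _ * _ = _ * _
          rw [ma_dl_mul, ma_dl_mul, hab _ (hw i hi) _ (hw j hj)]
        · exact Commute.one_right _
      · exact Commute.one_left _
  have hcard : IsUnit (algebraMap F (MonoidAlgebra F G) ((S.card : F) - c)) :=
    (IsUnit.mk0 _ (sub_ne_zero.2 hne)).map _
  have hu : IsUnit (A - κ) := by
    have e : A - κ = (∑ i ∈ S, (ma (dl F (w i)) - 1)) +
        algebraMap F (MonoidAlgebra F G) ((S.card : F) - c) := by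
      rw [Finset.sum_sub_distrib, Finset.sum_const, nsmul_eq_mul, mul_one, map_sub, map_natCast]
      abel
    rw [e]
    exact hnil.isUnit_add_right_of_commute hcard (Algebra.commutes _ _).symm
  apply h0
  apply ma_injective
  rw [ma_zero]
  rw [hpow] at hn
  exact (hu.pow n).mul_right_eq_zero.1 hn

end core

attribute [local instance] Ideal.Quotient.field

/-- RSV from the first main theorem -/
theorem rsv_of (fmg : FmgStmt) : RsvStmt := by
  intro ℓ _ M _ hM G _ _ e V γ hL u hu b₁ hLc χ hχ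
  have he := hL.blk
  have hT := hL.tp
  have hab := hL.ab
  have hF : GoodF ℓ (FF M) := H50.fld ℓ Fact.out M hM
  have hVC : V ≤ Cu u := fun v hv => Subgroup.mem_centralizer_singleton_iff.2 (hab v hv u hu)
  have hXC : Subgroup.centralizer (V : Set G) ≤ Cu u := fun g hg =>
    Subgroup.mem_centralizer_singleton_iff.2 (Subgroup.mem_centralizer_iff.1 hg u hu).symm
  have hwC : ∀ c ∈ Cu u, c * u = u * c := fun c hc =>
    Subgroup.mem_centralizer_singleton_iff.1 hc
  have hXN : Subgroup.centralizer (V : Set G) ≤ Subgroup.normalizer (V : Set G) := by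
    intro g hg
    rw [Subgroup.mem_normalizer_iff]
    intro v
    have h1 := Subgroup.mem_centralizer_iff.1 hg
    constructor
    · intro hv
      rw [← h1 v hv, mul_inv_cancel_right]
      exact hv
    · intro hv
      have h2 := h1 _ hv
      have h3 : g * v = g * (g * v * g⁻¹) := by
        rw [← h2]
        group
      rw [mul_left_cancel h3]
      exact hv
  set b : Cu u → FF M := fun t : Cu u => b₁ t with hbdef
  have hb : IsBlk b := hLc.blk.blk
  have heb : mulF (fun t : Cu u => e t) b = b := hLc.und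
  have hBb : PP.ext0 (Cu u) b = b₁ := by
    funext x
    by_cases hx : x ∈ Cu u
    · rw [H46.ext0_of_mem _ hx]
    · rw [H46.ext0_of_not_mem _ hx, hLc.blk.supp x hx]
  have hγ := hL.gam
  have hgb : Gd b (V.subgroupOf (Cu u)) := by
    by_contra hcon
    apply hγ.ne
    have h0 : br V b₁ = 0 := by
      funext x
      by_cases hx : x ∈ Subgroup.centralizer (V : Set G)
      · rw [H66.br_of_mem hx]
        by_contra hne
        exact hcon ⟨⟨x, hXC hx⟩, (cent_sub hVC _).2 hx, hne⟩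
      · rw [H66.br_of_not_mem hx]
        rfl
    have h1 := hLc.gam
    rw [h0, mulF_zero_left] at h1
    exact h1.symm
  have hB : Ix (Cu u) (PP.ext0 (Cu u) b) := by
    rw [hBb]
    exact hLc.blk.ix
  have heC : IsCl (fun t : Cu u => e t) := fun x y => he.1.1 x y
  have hVcard : Nat.card (V.subgroupOf (Cu u)) = Nat.card V :=
    Nat.card_congr (Subgroup.subgroupOfEquivOfLe hVC).toEquiv
  have hVp : IsPGroup ℓ (V.subgroupOf (Cu u)) :=
    hT.pg.of_equiv (Subgroup.subgroupOfEquivOfLe hVC).symm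
  -- `V` is a defect group of `b`
  have hTb : Tp ℓ b (V.subgroupOf (Cu u)) := by
    refine ⟨hVp, hgb, ?_⟩
    intro Q hQ hQb
    have h1 := gd_map (gd_of_mul hF heC hb.1.1 heb hQ hQb)
    have hcard : Nat.card (Q.map (Cu u).subtype) = Nat.card Q :=
      (Nat.card_congr (Q.equivMapOfInjective (Cu u).subtype
        (Cu u).subtype_injective).toEquiv).symm
    have h2 := hT.mx _ (hQ.map (Cu u).subtype) h1
    rw [hcard] at h2
    rw [hVcard]
    exact h2
  obtain ⟨hf1, ⟨hf2, -⟩, -⟩ := fmg ℓ M hM (Cu u) b hb _ hTb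
  have hbx := bx_of hVC hXC hXN hf2
  set B := PP.ext0 (Cu u) b with hBdef
  -- conjugates of `V` in the centraliser of `u`
  have hgood : ∀ t : G, (∀ v ∈ V, t⁻¹ * v * t ∈ Cu u) →
      (∃ x, (∀ v ∈ V, x * (t⁻¹ * v * t) = t⁻¹ * v * t * x) ∧ B x ≠ 0) →
      ∃ c ∈ Cu u, t * c ∈ Subgroup.normalizer (V : Set G) := by
    rintro t ht ⟨x, hx1, hx2⟩
    have hxC : x ∈ Cu u := by
      by_contra h
      exact hx2 (hB.supp x h)
    set Q : Subgroup (Cu u) := (conjS t⁻¹ V).subgroupOf (Cu u) with hQ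
    have hQC : conjS t⁻¹ V ≤ Cu u := by
      intro y hy
      rw [mem_conjS, inv_inv] at hy
      have := ht _ hy
      rwa [show t⁻¹ * (t * y * t⁻¹) * t = y by group] at this
    have hQp : IsPGroup ℓ Q :=
      (hT.pg.map (MulAut.conj t⁻¹).toMonoidHom).of_equiv (Subgroup.subgroupOfEquivOfLe hQC).symm
    have hQg : Gd b Q := by
      refine ⟨⟨x, hxC⟩, ?_, ?_⟩
      · rw [Subgroup.mem_centralizer_iff]
        intro y hy
        have hy' : (y : G) ∈ conjS t⁻¹ V := hy
        rw [mem_conjS, inv_inv] at hy'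
        have h3 := hx1 _ hy'
        rw [show t⁻¹ * (t * (y : G) * t⁻¹) * t = y by group] at h3
        exact Subtype.ext h3.symm
      · rw [hBdef, H46.ext0_of_mem _ hxC] at hx2
        exact hx2
    obtain ⟨c, hc⟩ := hf1 Q hQp hQg
    refine ⟨c, c.2, ?_⟩
    -- `(t c)⁻¹ V (t c) ≤ V`
    have h4 : ∀ v ∈ V, (t * (c : G))⁻¹ * v * (t * c) ∈ V := by
      intro v hv
      have h5 : (⟨t⁻¹ * v * t, ht v hv⟩ : Cu u) ∈ Q := by
        change t⁻¹ * v * t ∈ conjS t⁻¹ V
        rw [mem_conjS, inv_inv, show t * (t⁻¹ * v * t) * t⁻¹ = v by group]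
        exact hv
      have h6 := hc h5
      rw [mem_conjS] at h6
      have h7 : (c : G)⁻¹ * (t⁻¹ * v * t) * c ∈ V := h6
      rwa [show (t * (c : G))⁻¹ * v * (t * c) = (c : G)⁻¹ * (t⁻¹ * v * t) * c by group]
    have h8 : (t * (c : G))⁻¹ ∈ Subgroup.normalizer (V : Set G) := by
      have h9 : conjS (t * (c : G))⁻¹ V = V := by
        apply Subgroup.eq_of_le_of_card_ge
        · intro y hy
          rw [mem_conjS, inv_inv] at hy
          have := h4 _ hy
          rwa [show (t * (c : G))⁻¹ * (t * c * y * (t * (c : G))⁻¹) * (t * c) = y by group]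
            at this
        · exact (Nat.card_congr (V.equivMapOfInjective (MulAut.conj (t * (c : G))⁻¹).toMonoidHom
            (MulAut.conj (t * (c : G))⁻¹).injective).toEquiv).le
      rw [Subgroup.mem_normalizer_iff]
      intro v
      conv_rhs => rw [← h9]
      rw [mem_conjS, inv_inv]
      rw [show t * (c : G) * ((t * (c : G))⁻¹ * v * (t * c)) * (t * (c : G))⁻¹ = v by group]
    have := inv_mem h8
    rwa [inv_inv] at this
  have h1 : mulF (br V B) γ = γ := by
    rw [hBb]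
    exact hLc.gam
  have h2 : mulF (br V e) γ = γ := hL.und
  obtain ⟨S, f, hf, hcard, hzγ⟩ := core_sum hF hT.pg hab hVC hXC hB hu hwC hgood hγ h1 hbx
  have hz : trc (Cu u) u b = tsm (Cu u) (fun x => B (u⁻¹ * x)) := rfl
  have hzC : ∀ c ∈ Cu u, cj c (fun x => B (u⁻¹ * x)) = fun x => B (u⁻¹ * x) := by
    intro c hc
    funext x
    change B (u⁻¹ * (c⁻¹ * x * c)) = B (u⁻¹ * x)
    have h2 := (cj_eq_iff c B).1 (hB.inv hc) (u⁻¹ * (c⁻¹ * x * c))
    rw [← h2]
    congr 1
    have h4 : c * u⁻¹ = u⁻¹ * c := (show Commute c u from hwC c hc).inv_right.eq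
    calc c * (u⁻¹ * (c⁻¹ * x * c)) * c⁻¹ = (c * u⁻¹) * (c⁻¹ * x) := by group
      _ = u⁻¹ * x := by rw [h4]; group
  have hzcl : IsCl (trc (Cu u) u b) := by
    rw [hz]
    exact tsm_cl hzC
  set c := res M (trc (Cu u) u b) χ with hc
  have hlam := H50.isChar_res (M := M) hχ.1
  have ho : IsCl (dl (FF M) (1 : G)) := H46.isIdem_one.1
  have hs : IsCl (c • dl (FF M) (1 : G)) := (cfs (FF M) G).smul_mem c ho
  have hcl : IsCl (trc (Cu u) u b - c • dl (FF M) (1 : G)) := (cfs (FF M) G).sub_mem hzcl hs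
  have h0 : res M (trc (Cu u) u b - c • dl (FF M) (1 : G)) χ = 0 := by
    have e1 := hlam.sub _ _ hzcl hs
    have e2 := hlam.smul c _ ho
    have e3 := hlam.one he.1.1 hχ.2
    rw [e1, e2, e3, mul_one, ← hc, sub_self]
  obtain ⟨n, hn⟩ := H50.nil_of_zero he hcl hlam hχ.2 h0
  have h3 := (br_iter hF hT.pg (H66.IsCl.inv hcl V) (H66.IsCl.inv he.1.1 V) n).2
  rw [hn] at h3
  have h4 : br V (0 : G → FF M) = 0 := by
    funext g
    by_cases hg : g ∈ Subgroup.centralizer (V : Set G)
    · rw [H66.br_of_mem hg]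
    · rw [H66.br_of_not_mem hg]
      rfl
  rw [h4] at h3
  have h5 := congrArg ma h3
  rw [ma_zero, ma_iterate] at h5
  have hbr : ma (br V (trc (Cu u) u b - c • dl (FF M) (1 : G))) =
      ma (br V (trc (Cu u) u b)) - algebraMap (FF M) (MonoidAlgebra (FF M) G) c := by
    have e1 : br V (trc (Cu u) u b - c • dl (FF M) (1 : G)) =
        br V (trc (Cu u) u b) - c • dl (FF M) (1 : G) := by
      funext g
      by_cases hg : g ∈ Subgroup.centralizer (V : Set G)
      · rw [H66.br_of_mem hg]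
        change _ = br V (trc (Cu u) u b) g - _
        rw [H66.br_of_mem hg]
        rfl
      · rw [H66.br_of_not_mem hg]
        change _ = br V (trc (Cu u) u b) g - c * dl (FF M) (1 : G) g
        rw [H66.br_of_not_mem hg]
        have e2 : dl (FF M) (1 : G) g = 0 := by
          unfold dl
          rw [if_neg]
          rintro rfl
          exact hg (Subgroup.one_mem _)
        rw [e2, mul_zero, sub_zero]
    rw [e1, ma_sub, ma_smul, ma_dl_one, Algebra.algebraMap_eq_smul_one]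
  rw [hbr] at h5
  have h6 : (ma (br V (trc (Cu u) u b)) - algebraMap (FF M) (MonoidAlgebra (FF M) G) c) ^ n *
      ma γ = 0 := by
    conv_lhs => rw [← h2, ma_mul, ← mul_assoc, ← h5, zero_mul]
  have h7 := nil_eq hF hT.pg hab S f hf hγ.ne
    (fun v hv => hγ.ix.inv (by
      rw [Subgroup.mem_centralizer_iff]
      intro x hx
      exact hab x hx v hv)) hzγ c n h6
  rw [← h7, hcard]
  rfl

/-- **RSV** -/
theorem rsv : RsvStmt := rsv_of H69.fmg

end Pool.Agent.PP.T3.H17
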